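import Pool.Agent.Helper940.NMax

set_option autoImplicit false

namespace Pool.Agent.Results.MP_e8da98_al.NonNormal

/-- There is a finitely generated residually finite `2`-group with a maximal subgroup that is not
normal. -/
theorem result :
    ∃ (G : Type) (_ : Group G), Group.FG G ∧ IsPGroup 2 G ∧
      (∀ g : G, g ≠ 1 → ∃ N : Subgroup G, N.Normal ∧ N.index ≠ 0 ∧ g ∉ N) ∧
      ∃ M : Subgroup G, IsCoatom M ∧ ¬ M.Normal :=
  Pool.Agent.Helper940.NMax.main

end Pool.Agent.Results.MP_e8da98_al.NonNormal
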